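import Mathlib

set_option autoImplicit false

open MeasureTheory Filter Topology Set

namespace Pool.Agent.Results.MP_ea2cf4_gt.ClosedHaarNullNotSigmaNullFinite

/-- A subset `A` of a topological abelian group `X` is null-finite if there is a sequence
`u` in `X` converging to the neutral element such that, for every `x`, only finitely many
indices `n` satisfy `x + u n ∈ A`. -/
def IsNullFinite {X : Type*} [AddCommGroup X] [TopologicalSpace X] (A : Set X) : Prop :=
  ∃ u : ℕ → X, Tendsto u atTop (𝓝 0) ∧ ∀ x : X, {n : ℕ | x + u n ∈ A}.Finite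

/-- A subset `B` of a topological abelian group `X` is Haar-null (in the sense of Christensen)
if it is Borel and some Borel probability measure `μ` on `X` gives measure zero to every
translate `B + x` of `B`. -/
def IsHaarNull {X : Type*} [AddCommGroup X] [TopologicalSpace X] (B : Set X) : Prop :=
  MeasurableSet[borel X] B ∧
    ∃ μ : @Measure X (borel X), @IsProbabilityMeasure X (borel X) μ ∧
      ∀ x : X, μ ((fun b => b + x) '' B) = 0

/-- The group `∏_{n ≥ 2} C_n` (indexed by `n - 2`), with the product of the discrete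
topologies; the cyclic group `C_n` is written additively as `ZMod n`. -/
abbrev CycProd : Type := (n : ℕ) → ZMod (n + 2)

/-- The set `∏_{n ≥ 2} C_n^*` of all points with no trivial coordinate. -/
def nowhereTrivial : Set CycProd := {x | ∀ n, x n ≠ 0}

/-! ### Thick product sets and the fine topology -/

/-- relative size of the complement of `Q n` -/
noncomputable def defect (Q : (n : ℕ) → Set (ZMod (n + 2))) (n : ℕ) : ℝ :=
  ((Q n)ᶜ.ncard : ℝ) / (n + 2)

/-- all factors nonempty, with relative sizes tending to one -/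
def Thick (Q : (n : ℕ) → Set (ZMod (n + 2))) : Prop :=
  (∀ n, (Q n).Nonempty) ∧ Tendsto (defect Q) atTop (𝓝 0)

/-- the base of the fine topology -/
def fineBasis : Set (Set CycProd) := {V | ∃ Q, Thick Q ∧ V = Set.pi univ Q}

/-- the fine topology -/
@[reducible] def fineTop : TopologicalSpace CycProd := TopologicalSpace.generateFrom fineBasis

lemma defect_nonneg (Q : (n : ℕ) → Set (ZMod (n + 2))) (n : ℕ) : 0 ≤ defect Q n := by
  unfold defect; positivity

lemma defect_inter_le (Q R : (n : ℕ) → Set (ZMod (n + 2))) (n : ℕ) :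
    defect (fun n => Q n ∩ R n) n ≤ defect Q n + defect R n := by
  unfold defect
  rw [← add_div]
  have h : ((Q n ∩ R n)ᶜ).ncard ≤ ((Q n)ᶜ).ncard + ((R n)ᶜ).ncard := by
    rw [compl_inter]; exact ncard_union_le _ _
  have h' : (((Q n ∩ R n)ᶜ).ncard : ℝ) ≤ ((Q n)ᶜ).ncard + ((R n)ᶜ).ncard := by
    exact_mod_cast h
  gcongr

lemma thick_inter {Q R : (n : ℕ) → Set (ZMod (n + 2))} (hQ : Thick Q) (hR : Thick R)
    (hne : ∀ n, (Q n ∩ R n).Nonempty) : Thick (fun n => Q n ∩ R n) := by
  refine ⟨hne, ?_⟩
  have h := hQ.2.add hR.2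
  rw [add_zero] at h
  exact squeeze_zero (fun n => defect_nonneg _ n) (fun n => defect_inter_le Q R n) h

lemma thick_univ : Thick (fun n => (univ : Set (ZMod (n + 2)))) := by
  refine ⟨fun n => ⟨0, mem_univ _⟩, ?_⟩
  have : defect (fun n => (univ : Set (ZMod (n + 2)))) = fun _ => 0 := by
    funext n; simp [defect]
  rw [this]; exact tendsto_const_nhds

lemma fineBasis_isBasis : @TopologicalSpace.IsTopologicalBasis CycProd fineTop fineBasis := by
  let _ := fineTop
  refine ⟨?_, ?_, rfl⟩
  · rintro _ ⟨Q, hQ, rfl⟩ _ ⟨R, hR, rfl⟩ x ⟨hxQ, hxR⟩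
    refine ⟨Set.pi univ (fun n => Q n ∩ R n), ⟨_, thick_inter hQ hR ?_, rfl⟩, ?_, ?_⟩
    · exact fun n => ⟨x n, hxQ n (mem_univ _), hxR n (mem_univ _)⟩
    · exact fun n _ => ⟨hxQ n (mem_univ _), hxR n (mem_univ _)⟩
    · exact fun y hy => ⟨fun n hn => (hy n hn).1, fun n hn => (hy n hn).2⟩
  · refine eq_univ_of_univ_subset (subset_sUnion_of_mem ⟨_, thick_univ, ?_⟩)
    simp

/-- factors given by an arbitrary nonempty set at one coordinate and everything elsewhere -/
lemma thick_update (m : ℕ) (S : Set (ZMod (m + 2))) (hS : S.Nonempty) :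
    Thick (Function.update (fun n => (univ : Set (ZMod (n + 2)))) m S) := by
  refine ⟨fun n => ?_, ?_⟩
  · by_cases h : n = m
    · subst h; simpa using hS
    · rw [Function.update_of_ne h]; exact ⟨0, mem_univ _⟩
  · refine tendsto_const_nhds.congr' ?_
    filter_upwards [eventually_gt_atTop m] with n hn
    simp [defect, Function.update_of_ne hn.ne']

lemma fineTop_le : fineTop ≤ (Pi.topologicalSpace : TopologicalSpace CycProd) := by
  refine le_iInf fun m => ?_
  rw [← continuous_iff_le_induced]
  let _ := fineTop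
  refine continuous_discrete_rng.2 fun a => ?_
  have : (fun x : CycProd => x m) ⁻¹' {a}
      = Set.pi univ (Function.update (fun n => (univ : Set (ZMod (n + 2)))) m {a}) := by
    ext x
    simp only [mem_preimage, mem_singleton_iff, Set.mem_pi]
    constructor
    · intro h n _
      by_cases hn : n = m
      · subst hn; simpa using h
      · rw [Function.update_of_ne hn]; exact mem_univ _
    · intro h
      simpa using h m (mem_univ _)
  rw [this]
  exact fineBasis_isBasis.isOpen ⟨_, thick_update m {a} (singleton_nonempty a), rfl⟩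

lemma fine_continuous_add (s : CycProd) :
    @Continuous _ _ fineTop fineTop (fun x => x + s) := by
  let _ := fineTop
  refine continuous_generateFrom_iff.2 ?_
  rintro _ ⟨Q, hQ, rfl⟩
  have : (fun x : CycProd => x + s) ⁻¹' (Set.pi univ Q)
      = Set.pi univ (fun n => (fun y => y + s n) ⁻¹' (Q n)) := by
    ext x; simp [Set.mem_pi]
  rw [this]
  refine fineBasis_isBasis.isOpen ⟨_, ⟨fun n => ?_, ?_⟩, rfl⟩
  · obtain ⟨y, hy⟩ := hQ.1 n
    exact ⟨y - s n, by simpa using hy⟩
  · have : defect (fun n => (fun y => y + s n) ⁻¹' (Q n)) = defect Q := by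
      funext n
      unfold defect
      congr 2
      have : ((fun y => y + s n) ⁻¹' (Q n))ᶜ = (fun y => y + s n) ⁻¹' ((Q n)ᶜ) := rfl
      rw [this]
      have hinj : Function.Injective (fun y : ZMod (n + 2) => y + s n) := add_left_injective _
      rw [ncard_preimage_of_injective_subset_range hinj]
      intro z _
      exact ⟨z - s n, by simp⟩
    rw [this]; exact hQ.2

lemma fine_tendsto_residual_add (s : CycProd) :
    Tendsto (fun x : CycProd => x + s) (@residual _ fineTop) (@residual _ fineTop) := by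
  let _ := fineTop
  let e : CycProd ≃ₜ CycProd :=
    { toFun := fun x => x + s
      invFun := fun x => x + (-s)
      left_inv := fun x => by simp
      right_inv := fun x => by simp
      continuous_toFun := fine_continuous_add s
      continuous_invFun := fine_continuous_add (-s) }
  exact tendsto_residual_of_isOpenMap e.continuous e.isOpenMap

lemma fine_baire : @BaireSpace CycProd fineTop := by
  let _ := fineTop
  refine ⟨fun f ho hd => ?_⟩
  rw [fineBasis_isBasis.dense_iff]
  intro V hV hVne
  -- each step: inside a base set, find a smaller base set inside `f n`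
  have step : ∀ (n : ℕ) (W : Set CycProd), W ∈ fineBasis →
      ∃ W' ∈ fineBasis, W' ⊆ W ∩ f n := by
    intro n W hW
    have hWo : IsOpen W := fineBasis_isBasis.isOpen hW
    have hWne : W.Nonempty := by
      obtain ⟨Q, hQ, rfl⟩ := hW
      exact univ_pi_nonempty_iff.2 hQ.1
    obtain ⟨x, hx⟩ := (hd n).inter_open_nonempty W hWo hWne
    obtain ⟨W', hW', _, hsub⟩ :=
      fineBasis_isBasis.exists_subset_of_mem_open hx (hWo.inter (ho n))
    exact ⟨W', hW', hsub⟩
  choose! g hg hgsub using step
  let W : ℕ → Set CycProd := fun n => Nat.rec V (fun k W => g k W) n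
  have hW : ∀ n, W n ∈ fineBasis := by
    intro n
    induction n with
    | zero => exact hV
    | succ k ih => exact hg k _ ih
  have hWsub : ∀ n, W (n + 1) ⊆ W n ∩ f n := fun n => hgsub n _ (hW n)
  have key : (⋂ n, W n).Nonempty := by
    have hcl : ∀ n, @IsClosed _ (Pi.topologicalSpace) (W n) := by
      intro n
      obtain ⟨Q, hQ, hQe⟩ := hW n
      rw [hQe]
      exact @isClosed_set_pi _ _ _ _ _ (fun i _ => isClosed_discrete _)
    exact @IsCompact.nonempty_iInter_of_sequence_nonempty_isCompact_isClosed _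
      (Pi.topologicalSpace) W (fun n x hx => (hWsub n hx).1)
      (fun n => by
        obtain ⟨Q, hQ, hQe⟩ := hW n
        rw [hQe]
        exact univ_pi_nonempty_iff.2 hQ.1)
      (@IsClosed.isCompact _ (Pi.topologicalSpace) _ _ (hcl 0)) hcl
  obtain ⟨x, hx⟩ := key
  rw [mem_iInter] at hx
  exact ⟨x, hx 0, mem_iInter.2 fun n => (hWsub n (hx (n + 1))).2⟩

/-- Along a sparse subsequence of a null-sequence, the points of a thick product set all of whose
translates stay in that product set again form a thick product set. -/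
lemma exists_subseq_thick (Q : (n : ℕ) → Set (ZMod (n + 2))) (hQ : Thick Q)
    (u : ℕ → CycProd) (hu : Tendsto u atTop (𝓝 0)) :
    ∃ φ : ℕ → ℕ, StrictMono φ ∧
      Thick (fun j => {y | y ∈ Q j ∧ ∀ k, y + u (φ k) j ∈ Q j}) := by
  have hs : Tendsto (fun j => Real.sqrt (defect Q j)) atTop (𝓝 0) := by
    have := (Real.continuous_sqrt.tendsto 0).comp hQ.2
    simpa [Function.comp_def] using this
  have hJ : ∀ k : ℕ, ∃ J : ℕ, ∀ j ≥ J,
      ((k : ℝ) + 1) * Real.sqrt (defect Q j) ≤ 1 ∧ Real.sqrt (defect Q j) < 1 / 2 := by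
    intro k
    have h1 : Tendsto (fun j => ((k : ℝ) + 1) * Real.sqrt (defect Q j)) atTop (𝓝 0) := by
      simpa using hs.const_mul ((k : ℝ) + 1)
    have h2 : ∀ᶠ j in atTop, ((k : ℝ) + 1) * Real.sqrt (defect Q j) ≤ 1 :=
      h1.eventually_le_const one_pos
    have h3 : ∀ᶠ j in atTop, Real.sqrt (defect Q j) < 1 / 2 :=
      hs.eventually_lt_const (by norm_num)
    exact eventually_atTop.1 (h2.and h3)
  choose J hJ using hJ
  have hev : ∀ k : ℕ, ∃ N, ∀ n ≥ N, ∀ j < max (J k) k, u n j = 0 := by
    intro k
    have : ∀ᶠ n in atTop, ∀ j ∈ Set.Iio (max (J k) k), u n j = 0 := by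
      refine (eventually_all_finite (Set.finite_Iio _)).2 fun j _ => ?_
      have hj : Tendsto (fun n => u n j) atTop (𝓝 (0 : ZMod (j + 2))) :=
        ((continuous_apply j).tendsto (0 : CycProd)).comp hu
      exact hj.eventually (isOpen_discrete ({0} : Set (ZMod (j + 2))) |>.mem_nhds rfl)
    obtain ⟨N, hN⟩ := eventually_atTop.1 this
    exact ⟨N, fun n hn j hj => hN n hn j hj⟩
  obtain ⟨φ, hφ, hφu⟩ := extraction_forall_of_eventually' hev
  refine ⟨φ, hφ, ?_⟩
  set R : (n : ℕ) → Set (ZMod (n + 2)) := fun j => {y | y ∈ Q j ∧ ∀ k, y + u (φ k) j ∈ Q j}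
    with hR
  -- indices that may act on coordinate `j`
  let K : ℕ → Finset ℕ := fun j => (Finset.range (j + 1)).filter fun k => max (J k) k ≤ j
  have hK : ∀ j k, k ∉ K j → u (φ k) j = 0 := by
    intro j k hk
    refine hφu k j ?_
    by_contra hlt
    rw [not_lt] at hlt
    exact hk (Finset.mem_filter.2 ⟨Finset.mem_range.2
      (Nat.lt_succ_of_le ((le_max_right _ _).trans hlt)), hlt⟩)
  have hcard : ∀ j, ((K j).card : ℝ) * Real.sqrt (defect Q j) ≤ 1 := by
    intro j
    rcases (K j).eq_empty_or_nonempty with h | h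
    · rw [h]; simp
    · set m := (K j).max' h with hm
      have hmK : m ∈ K j := Finset.max'_mem _ _
      have hsub : K j ⊆ Finset.range (m + 1) := fun k hk =>
        Finset.mem_range.2 (Nat.lt_succ_of_le (Finset.le_max' _ _ hk))
      have hle : ((K j).card : ℝ) ≤ (m : ℝ) + 1 := by
        have := Finset.card_le_card hsub
        rw [Finset.card_range] at this
        exact_mod_cast this
      have h1 := (hJ m j ((le_max_left _ _).trans (Finset.mem_filter.1 hmK).2)).1
      calc ((K j).card : ℝ) * Real.sqrt (defect Q j)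
          ≤ ((m : ℝ) + 1) * Real.sqrt (defect Q j) := by gcongr
        _ ≤ 1 := h1
  have hcompl : ∀ j, ((R j)ᶜ).ncard ≤ ((Q j)ᶜ).ncard + (K j).card * ((Q j)ᶜ).ncard := by
    intro j
    have hsub : (R j)ᶜ ⊆ (Q j)ᶜ ∪ ⋃ k ∈ K j, (fun y => y + u (φ k) j) ⁻¹' ((Q j)ᶜ) := by
      intro y hy
      by_contra hcon
      simp only [mem_union, mem_compl_iff, mem_iUnion, mem_preimage, not_or, not_not,
        not_exists] at hcon
      refine hy ⟨hcon.1, fun k => ?_⟩
      by_cases hk : k ∈ K j
      · exact hcon.2 k hk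
      · rw [hK j k hk, add_zero]; exact hcon.1
    refine (ncard_le_ncard hsub (Set.toFinite _)).trans ((ncard_union_le _ _).trans ?_)
    gcongr
    refine (Finset.set_ncard_biUnion_le _ _).trans ?_
    refine (Finset.sum_le_card_nsmul _ _ ((Q j)ᶜ).ncard fun k _ => ?_).trans (by simp)
    have hinj : Function.Injective (fun y : ZMod (j + 2) => y + u (φ k) j) :=
      add_left_injective _
    rw [ncard_preimage_of_injective_subset_range hinj]
    intro z _
    exact ⟨z - u (φ k) j, by simp⟩
  have hdef : ∀ j, defect R j ≤ defect Q j + Real.sqrt (defect Q j) := by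
    intro j
    have h1 : (((R j)ᶜ).ncard : ℝ) ≤ ((Q j)ᶜ).ncard + (K j).card * ((Q j)ᶜ).ncard := by
      exact_mod_cast hcompl j
    have h2 : defect R j ≤ defect Q j + (K j).card * defect Q j := by
      unfold defect
      rw [← mul_div_assoc, ← add_div]
      gcongr
    have h3 : ((K j).card : ℝ) * defect Q j ≤ Real.sqrt (defect Q j) := by
      have h4 : defect Q j = Real.sqrt (defect Q j) * Real.sqrt (defect Q j) :=
        (Real.mul_self_sqrt (defect_nonneg Q j)).symm
      calc ((K j).card : ℝ) * defect Q j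
          = (((K j).card : ℝ) * Real.sqrt (defect Q j)) * Real.sqrt (defect Q j) := by
            rw [mul_assoc, ← h4]
        _ ≤ 1 * Real.sqrt (defect Q j) := by gcongr; exact hcard j
        _ = Real.sqrt (defect Q j) := one_mul _
    linarith
  refine ⟨fun j => ?_, ?_⟩
  · rcases (K j).eq_empty_or_nonempty with h | h
    · obtain ⟨y, hy⟩ := hQ.1 j
      refine ⟨y, hy, fun k => ?_⟩
      rw [hK j k (by rw [h]; simp), add_zero]
      exact hy
    · obtain ⟨k, hk⟩ := h
      have h1 := (hJ k j ((le_max_left _ _).trans (Finset.mem_filter.1 hk).2)).2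
      have h2 : defect Q j = Real.sqrt (defect Q j) * Real.sqrt (defect Q j) :=
        (Real.mul_self_sqrt (defect_nonneg Q j)).symm
      have h3 : defect R j < 1 := by
        have h0 := Real.sqrt_nonneg (defect Q j)
        have := hdef j
        nlinarith
      by_contra hne
      rw [not_nonempty_iff_eq_empty] at hne
      have : defect R j = 1 := by
        unfold defect
        rw [hne, compl_empty, ncard_univ, Nat.card_zmod]
        push_cast
        exact div_self (by positivity)
      linarith
  · have h := hQ.2.add hs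
    rw [add_zero] at h
    exact squeeze_zero (fun j => defect_nonneg _ j) hdef h

lemma nowhereTrivial_mem_fineBasis : nowhereTrivial ∈ fineBasis := by
  refine ⟨fun n => {0}ᶜ, ⟨fun n => ⟨1, ?_⟩, ?_⟩, ?_⟩
  · simp only [mem_compl_iff, mem_singleton_iff]
    have : Fact (1 < n + 2) := ⟨by omega⟩
    exact one_ne_zero
  · have : defect (fun n => ({0}ᶜ : Set (ZMod (n + 2)))) = fun n : ℕ => 1 / ((n : ℝ) + 2) := by
      funext n
      simp [defect]
    rw [this]
    have h := (tendsto_one_div_add_atTop_nhds_zero_nat (𝕜 := ℝ)).comp (tendsto_add_atTop_nat 1)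
    refine h.congr fun n => ?_
    simp only [Function.comp_apply]
    push_cast
    ring_nf
  · ext x
    simp [nowhereTrivial, Set.mem_pi]

/-- Category argument: no sequence of null-finite sets with the Baire property (for the fine
topology) covers `nowhereTrivial`. -/
lemma not_covered (B : ℕ → Set CycProd)
    (hB : ∀ k, MeasurableSet[borel CycProd] (B k) ∧ IsNullFinite (B k)) :
    ¬ nowhereTrivial ⊆ ⋃ k, B k := by
  intro hcov
  have hborel : ∀ k, MeasurableSet[@borel CycProd fineTop] (B k) := fun k =>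
    borel_anti fineTop_le _ (hB k).1
  have hopen : ∀ k, ∃ U : Set CycProd, @IsOpen _ fineTop U ∧
      ∀ᶠ x in @residual _ fineTop, (x ∈ B k ↔ x ∈ U) := by
    intro k
    let _ := fineTop
    let _ : MeasurableSpace CycProd := borel CycProd
    have : BorelSpace CycProd := ⟨rfl⟩
    obtain ⟨U, hU, hBU⟩ := MeasurableSet.residualEq_isOpen (hborel k)
    exact ⟨U, hU, hBU.mem_iff⟩
  choose U hU hBU using hopen
  -- some `U k` meets `nowhereTrivial`
  have hex : ∃ k, (nowhereTrivial ∩ U k).Nonempty := by
    let _ := fineTop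
    have := fine_baire
    have h1 : ∀ᶠ x in residual CycProd, ∀ k, (x ∈ B k ↔ x ∈ U k) :=
      eventually_countable_forall.2 hBU
    have h2 : Dense {x | ∀ k, (x ∈ B k ↔ x ∈ U k)} := dense_of_mem_residual h1
    obtain ⟨Q, hQ, hQe⟩ := nowhereTrivial_mem_fineBasis
    have hne : (nowhereTrivial : Set CycProd).Nonempty := by
      rw [hQe]; exact univ_pi_nonempty_iff.2 hQ.1
    obtain ⟨x, hx, hx'⟩ := h2.inter_open_nonempty _
      (fineBasis_isBasis.isOpen nowhereTrivial_mem_fineBasis) hne
    obtain ⟨k, hk⟩ := mem_iUnion.1 (hcov hx)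
    exact ⟨k, x, hx, (hx' k).1 hk⟩
  obtain ⟨k, x₀, hx₀, hx₀U⟩ := hex
  obtain ⟨V, ⟨Q, hQ, rfl⟩, _, hVU⟩ :=
    @TopologicalSpace.IsTopologicalBasis.exists_subset_of_mem_open _ fineTop _
      fineBasis_isBasis _ _ hx₀U (hU k)
  obtain ⟨u, hu, hfin⟩ := (hB k).2
  obtain ⟨φ, hφ, hthick⟩ := exists_subseq_thick Q hQ u hu
  have hall : ∀ᶠ x in @residual _ fineTop, ∀ i, (x + u (φ i) ∈ B k ↔ x + u (φ i) ∈ U k) := by
    let _ := fineTop
    exact eventually_countable_forall.2 fun i =>
      (fine_tendsto_residual_add (u (φ i))).eventually (hBU k)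
  obtain ⟨x, hxV, hx⟩ : ∃ x ∈ Set.pi univ (fun j => {y | y ∈ Q j ∧ ∀ i, y + u (φ i) j ∈ Q j}),
      ∀ i, (x + u (φ i) ∈ B k ↔ x + u (φ i) ∈ U k) := by
    let _ := fineTop
    have := fine_baire
    have h2 := dense_of_mem_residual hall
    obtain ⟨x, hx, hx'⟩ := h2.inter_open_nonempty _ (fineBasis_isBasis.isOpen ⟨_, hthick, rfl⟩)
      (univ_pi_nonempty_iff.2 hthick.1)
    exact ⟨x, hx, hx'⟩
  have hmem : ∀ i, x + u (φ i) ∈ B k := fun i =>
    (hx i).2 (hVU fun j _ => (hxV j (mem_univ _)).2 i)
  have hinf : {n : ℕ | x + u n ∈ B k}.Infinite := by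
    refine (Set.infinite_range_of_injective hφ.injective).mono ?_
    rintro _ ⟨i, rfl⟩
    exact hmem i
  exact hinf (hfin x)

lemma isClosed_nowhereTrivial : IsClosed nowhereTrivial := by
  have : nowhereTrivial = Set.pi univ fun n => ({0}ᶜ : Set (ZMod (n + 2))) := by
    ext x; simp [nowhereTrivial, Set.mem_pi]
  rw [this]
  exact isClosed_set_pi fun _ _ => isClosed_discrete _

lemma isHaarNull_nowhereTrivial : IsHaarNull nowhereTrivial := by
  have hb : (MeasurableSpace.pi : MeasurableSpace CycProd) = borel CycProd :=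
    BorelSpace.measurable_eq
  unfold IsHaarNull
  rw [← hb]
  refine ⟨isClosed_nowhereTrivial.measurableSet, ?_⟩
  let ν : (n : ℕ) → Measure (ZMod (n + 2)) := fun n =>
    (PMF.uniformOfFintype (ZMod (n + 2))).toMeasure
  refine ⟨Measure.infinitePi ν, inferInstance, fun x => ?_⟩
  have hbound : ∀ m : ℕ, Measure.infinitePi ν ((fun b => b + x) '' nowhereTrivial)
      ≤ ENNReal.ofReal (1 / ((m : ℝ) + 1)) := by
    intro m
    have hsub : (fun b => b + x) '' nowhereTrivial ⊆
        Set.pi (Finset.range m : Set ℕ) (fun n => ({x n}ᶜ : Set (ZMod (n + 2)))) := by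
      rintro _ ⟨b, hb, rfl⟩ n _
      simpa using hb n
    refine (measure_mono hsub).trans ?_
    rw [Measure.infinitePi_pi ν (fun _ _ => MeasurableSet.of_discrete)]
    have hfac : ∀ n, ν n ({x n}ᶜ : Set (ZMod (n + 2)))
        = ENNReal.ofReal (((n : ℝ) + 1) / ((n : ℝ) + 2)) := by
      intro n
      have h1 : ν n ({x n} : Set (ZMod (n + 2))) = ENNReal.ofReal (1 / ((n : ℝ) + 2)) := by
        have : ν n ({x n} : Set (ZMod (n + 2))) = ((n : ENNReal) + 2)⁻¹ := by
          simp only [ν]
          rw [PMF.toMeasure_apply_singleton _ _ MeasurableSet.of_discrete]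
          simp [PMF.uniformOfFintype_apply, ZMod.card]
        rw [this, one_div, ENNReal.ofReal_inv_of_pos (by positivity)]
        congr 1
        rw [ENNReal.ofReal_add (by positivity) (by positivity)]
        simp
      rw [prob_compl_eq_one_sub MeasurableSet.of_discrete, h1, ← ENNReal.ofReal_one,
        ← ENNReal.ofReal_sub _ (by positivity)]
      congr 1
      field_simp
      ring
    rw [Finset.prod_congr rfl fun n _ => hfac n,
      ← ENNReal.ofReal_prod_of_nonneg fun n _ => by positivity]
    refine ENNReal.ofReal_le_ofReal (le_of_eq ?_)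
    induction m with
    | zero => simp
    | succ m ih =>
      rw [Finset.prod_range_succ, ih]
      · push_cast
        field_simp
        ring
      · intro b hb n hn
        exact hsub hb n (by
          simp only [Finset.coe_range, mem_Iio] at hn ⊢; omega)
  have hlim : Tendsto (fun m : ℕ => ENNReal.ofReal (1 / ((m : ℝ) + 1))) atTop (𝓝 0) := by
    have := (ENNReal.continuous_ofReal.tendsto 0).comp
      (tendsto_one_div_add_atTop_nhds_zero_nat (𝕜 := ℝ))
    simpa [Function.comp_def] using this
  exact le_antisymm (ge_of_tendsto' hlim hbound) bot_le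

/-- In the compact abelian Polish group `∏_{n ≥ 2} C_n`, the set `∏_{n ≥ 2} C_n^*` is closed and
Haar-null, but no sequence of Borel null-finite sets covers it. -/
theorem result :
    IsTopologicalAddGroup CycProd ∧ PolishSpace CycProd ∧
      IsClosed nowhereTrivial ∧ IsHaarNull nowhereTrivial ∧
      ∀ B : ℕ → Set CycProd,
        (∀ k, MeasurableSet[borel CycProd] (B k) ∧ IsNullFinite (B k)) →
          ¬ nowhereTrivial ⊆ ⋃ k, B k :=
  ⟨inferInstance, inferInstance, isClosed_nowhereTrivial, isHaarNull_nowhereTrivial, not_covered⟩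

end Pool.Agent.Results.MP_ea2cf4_gt.ClosedHaarNullNotSigmaNullFinite
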